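import Pool.Agent.MVS.Stmts

/-!
# MVS row LIN (helper15): a trace inequality in a basis adapted to the splitting

`trace (gm(B)⁻¹ gm(C)) = ∑ C(f_i,f_i)` for every `B`-orthonormal basis `f`; the basis is built from
`y`, from `{pN = 0}`, from `σ`, and completed.
-/

noncomputable section

open scoped ContDiff Topology RealInnerProductSpace
open Set MeasureTheory

namespace Pool.Agent.MVS.H15

open Pool.Agent.RF

theorem eb_sum (v : E5) : v = ∑ i, v i • eb i := by
  ext j
  simp [eb, Pi.single_apply]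

theorem bil_expand (B : Bil E5) (v w : E5) :
    B v w = ∑ i, ∑ j, v i * (gm B i j * w j) := by
  have h1 : B v w = B (∑ i, v i • eb i) (∑ j, w j • eb j) := by
    rw [← eb_sum v, ← eb_sum w]
  rw [h1]
  simp only [map_sum, map_smul, ContinuousLinearMap.coe_sum', Finset.sum_apply,
    ContinuousLinearMap.coe_smul', Pi.smul_apply, smul_eq_mul, gm, Matrix.of_apply,
    Finset.mul_sum]
  rw [Finset.sum_comm]
  refine Finset.sum_congr rfl fun i _ => Finset.sum_congr rfl fun j _ => ?_
  ring

theorem trace_formula {ι : Type} [Fintype ι] [DecidableEq ι] (hι : Fintype.card ι = 5)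
    (B C : Bil E5) (f : ι → E5) (hf : ∀ i j, B (f i) (f j) = if i = j then 1 else 0) :
    ((gm B)⁻¹ * gm C).trace = ∑ i, C (f i) (f i) := by
  set F : Matrix (Fin 5) ι ℝ := Matrix.of fun a i => f i a with hF
  have hgen : ∀ (D : Bil E5) (i j : ι), (F.transpose * (gm D * F)) i j = D (f i) (f j) := by
    intro D i j
    rw [bil_expand D (f i) (f j)]
    simp only [Matrix.mul_apply, Matrix.transpose_apply, hF, Matrix.of_apply, Finset.mul_sum]
  have h1 : (F.transpose * gm B) * F = 1 := by
    rw [Matrix.mul_assoc]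
    ext i j
    rw [hgen, hf, Matrix.one_apply]
  have h2 : F * (F.transpose * gm B) = 1 := by
    have e : ι ≃ Fin 5 := Fintype.equivFinOfCardEq hι
    exact (Matrix.mul_eq_one_comm_of_equiv e).mp h1
  have h3 : (F * F.transpose) * gm B = 1 := by
    rw [Matrix.mul_assoc]; exact h2
  have h4 : (gm B)⁻¹ = F * F.transpose := Matrix.inv_eq_left_inv h3
  rw [h4, Matrix.mul_assoc, Matrix.trace_mul_comm, Matrix.mul_assoc]
  unfold Matrix.trace
  refine Finset.sum_congr rfl fun i _ => ?_
  rw [Matrix.diag_apply, hgen]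

theorem exists_L (B : Bil E5) (hs : ∀ v w, B v w = B w v) (hp : ∀ v, v ≠ 0 → 0 < B v v) :
    ∃ L : E5 ≃ₗ[ℝ] E5, ∀ v w, B v w = ⟪L v, L w⟫ := by
  have hdot : ∀ v w : Fin 5 → ℝ, v ⬝ᵥ (gm B).mulVec w = B (WithLp.toLp 2 v) (WithLp.toLp 2 w) := by
    intro v w
    rw [bil_expand]
    simp only [dotProduct, Matrix.mulVec, Finset.mul_sum]
  have hM : (gm B).PosSemidef := by
    refine Matrix.PosSemidef.of_dotProduct_mulVec_nonneg ?_ ?_
    · ext i j
      simp only [Matrix.conjTranspose_apply, gm, Matrix.of_apply, star_trivial]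
      exact hs _ _
    · intro x
      rw [star_trivial, hdot]
      by_cases hx : (WithLp.toLp 2 x : E5) = 0
      · rw [hx]; simp
      · exact (hp _ hx).le
  obtain ⟨R, hR⟩ : ∃ R : Matrix (Fin 5) (Fin 5) ℝ, gm B = star R * R := by
    open scoped MatrixOrder in
    exact CStarAlgebra.nonneg_iff_eq_star_mul_self.mp hM.nonneg
  let L0 : E5 →ₗ[ℝ] E5 :=
    { toFun := fun v => WithLp.toLp 2 (R.mulVec v.ofLp)
      map_add' := by
        intro v w
        ext i
        simp [Matrix.mulVec_add]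
      map_smul' := by
        intro c v
        ext i
        simp [Matrix.mulVec_smul] }
  have hL0 : ∀ v w, B v w = ⟪L0 v, L0 w⟫ := by
    intro v w
    have h1 := hdot v.ofLp w.ofLp
    have h2 : B v w = v.ofLp ⬝ᵥ (gm B).mulVec w.ofLp := h1.symm
    rw [h2, hR, ← Matrix.mulVec_mulVec, Matrix.dotProduct_mulVec]
    have h3 : Matrix.vecMul v.ofLp (star R) = R.mulVec v.ofLp := by
      ext i
      simp only [Matrix.vecMul, Matrix.mulVec, dotProduct, Matrix.star_apply, star_trivial]
      exact Finset.sum_congr rfl fun j _ => mul_comm _ _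
    rw [h3]
    simp only [L0, LinearMap.coe_mk, AddHom.coe_mk, PiLp.inner_apply, dotProduct]
    refine Finset.sum_congr rfl fun j _ => ?_
    simp [mul_comm]
  have hinj : Function.Injective L0 := by
    rw [injective_iff_map_eq_zero]
    intro v hv
    by_contra hne
    have h1 := hp v hne
    rw [hL0, hv, inner_zero_left] at h1
    exact lt_irrefl _ h1
  exact ⟨LinearEquiv.ofInjectiveEndo L0 hinj, fun v w => by
    simpa using hL0 v w⟩

theorem pP_coord (S : Finset (Fin 5)) (w : E5) (j : Fin 5) :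
    (pP S w) j = if j ∈ S then w j else 0 := by
  have h1 : pP S w = ∑ c ∈ S, w c • (eb c : E5) := by
    unfold pP
    simp only [ContinuousLinearMap.coe_sum', Finset.sum_apply,
      ContinuousLinearMap.smulRight_apply]
    rfl
  rw [h1]
  simp [eb, Pi.single_apply]

theorem finrank_P (κ : Finset (Fin 5)) :
    Module.finrank ℝ (LinearMap.ker (pN κ : E5 →ₗ[ℝ] E5)) = κ.card := by
  have hmem : ∀ w : E5, w ∈ LinearMap.ker (pN κ : E5 →ₗ[ℝ] E5) ↔ ∀ i, i ∉ κ → w i = 0 := by
    intro w
    rw [LinearMap.mem_ker]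
    constructor
    · intro h i hi
      have h1 : (pN κ w) i = 0 := by
        have h2 : pN κ w = 0 := h
        rw [h2]; rfl
      rw [pN, pP_coord] at h1
      simpa [hi] using h1
    · intro h
      have h2 : pN κ w = 0 := by
        ext i
        rw [pN, pP_coord]
        by_cases hi : i ∈ κ
        · simp [hi]
        · simp [hi, h i hi]
      exact h2
  let e : LinearMap.ker (pN κ : E5 →ₗ[ℝ] E5) ≃ₗ[ℝ] (κ → ℝ) :=
    { toFun := fun w i => (w : E5) (i : Fin 5)
      map_add' := by
        intro v w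
        rfl
      map_smul' := by
        intro c v
        rfl
      invFun := fun g => ⟨WithLp.toLp 2 (fun i => if h : i ∈ κ then g ⟨i, h⟩ else 0), by
        rw [hmem]
        intro i hi
        simp [hi]⟩
      left_inv := by
        intro w
        apply Subtype.ext
        ext i
        by_cases hi : i ∈ κ
        · simp [hi]
        · have := (hmem w).mp w.2 i hi
          simp [hi, this]
      right_inv := by
        intro g
        ext i
        simp }
  rw [e.finrank_eq, Module.finrank_fintype_fun_eq_card, Fintype.card_coe]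

theorem lin : LinStatement := by
  intro κ B C τ c d σ y hκ hσ hσ0 hy hy0 hBs hBp hCs hyB hσB hCy hCσ hd hc
  obtain ⟨L, hL⟩ := exists_L B hBs hBp
  set P : Submodule ℝ E5 := LinearMap.ker (pN κ : E5 →ₗ[ℝ] E5) with hP
  set U : Submodule ℝ E5 := P.map (L : E5 →ₗ[ℝ] E5) with hU
  have hk : 1 ≤ κ.card ∧ κ.card ≤ 4 := by omega
  have hUdim : Module.finrank ℝ U = Fintype.card (Unit ⊕ Fin (κ.card - 1)) := by
    have h1 : Module.finrank ℝ U = Module.finrank ℝ P :=
      LinearEquiv.finrank_map_eq L P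
    rw [h1, hP, finrank_P]
    simp only [Fintype.card_sum, Fintype.card_unit, Fintype.card_fin]
    omega
  have hyU : L y ∈ U := ⟨y, hy, rfl⟩
  have hLy : L y ≠ 0 := by
    intro h
    exact hy0 (L.map_eq_zero_iff.mp h)
  have hLσ : L σ ≠ 0 := by
    intro h
    exact hσ0 (L.map_eq_zero_iff.mp h)
  have hny : ‖L y‖ ≠ 0 := norm_ne_zero_iff.mpr hLy
  have hnσ : ‖L σ‖ ≠ 0 := norm_ne_zero_iff.mpr hLσ
  -- orthonormal basis of `U`
  set u0 : U := ‖L y‖⁻¹ • (⟨L y, hyU⟩ : U) with hu0
  have hu0n : ‖u0‖ = 1 := by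
    rw [hu0, norm_smul, norm_inv, norm_norm]
    exact inv_mul_cancel₀ hny
  obtain ⟨b1, hb1⟩ : ∃ b : OrthonormalBasis (Unit ⊕ Fin (κ.card - 1)) ℝ U,
      ∀ i ∈ ({Sum.inl ()} : Set (Unit ⊕ Fin (κ.card - 1))), b i = u0 := by
    have hon : Orthonormal ℝ (({Sum.inl ()} : Set (Unit ⊕ Fin (κ.card - 1))).domRestrict
        (fun _ : Unit ⊕ Fin (κ.card - 1) => u0)) := by
      constructor
      · intro i
        exact hu0n
      · intro i j hij
        exact absurd (Subsingleton.elim i j) hij
    exact hon.exists_orthonormalBasis_extension_of_card_eq hUdim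
  have hb10 : b1 (Sum.inl ()) = u0 := hb1 _ rfl
  -- orthonormal basis of the whole space
  set v2 : (Unit ⊕ Fin (κ.card - 1)) ⊕ (Unit ⊕ Fin (4 - κ.card)) → E5 :=
    Sum.elim (fun i => (b1 i : E5)) (fun _ => ‖L σ‖⁻¹ • L σ) with hv2
  set s2 : Set ((Unit ⊕ Fin (κ.card - 1)) ⊕ (Unit ⊕ Fin (4 - κ.card))) :=
    {x | ∀ j, x ≠ Sum.inr (Sum.inr j)} with hs2
  have horth : ∀ u ∈ U, ⟪u, L σ⟫ = 0 := by
    rintro u ⟨w, hw, rfl⟩
    have hw' : pN κ w = 0 := hw
    have h1 : B w σ = 0 := by
      rw [hBs]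
      apply hσB
      have hσc : ∀ i ∈ κ, σ i = 0 := by
        intro i hi
        have h2 : (pP κ σ) i = 0 := by rw [hσ]; rfl
        rw [pP_coord, if_pos hi] at h2
        exact h2
      have hwc : ∀ i, i ∉ κ → w i = 0 := by
        intro i hi
        have h2 : (pN κ w) i = 0 := by rw [hw']; rfl
        rw [pN, pP_coord, if_pos (by simpa using hi)] at h2
        exact h2
      rw [PiLp.inner_apply]
      apply Finset.sum_eq_zero
      intro i _
      by_cases hi : i ∈ κ
      · simp [hσc i hi]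
      · simp [hwc i hi]
    have h3 := hL w σ
    rw [h1] at h3
    exact h3.symm
  have hon2 : Orthonormal ℝ (s2.domRestrict v2) := by
    have hb1o := b1.orthonormal
    constructor
    · rintro ⟨i, hi⟩
      rcases i with i | i
      · have h1 := hb1o.1 i
        exact h1
      · change ‖‖L σ‖⁻¹ • L σ‖ = 1
        rw [norm_smul, norm_inv, norm_norm]
        exact inv_mul_cancel₀ hnσ
    · rintro ⟨i, hi⟩ ⟨j, hj⟩ hij
      rcases i with i | i <;> rcases j with j | j
      · have hij' : i ≠ j := fun h => hij (by subst h; rfl)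
        exact hb1o.2 hij'
      · change ⟪(b1 i : E5), ‖L σ‖⁻¹ • L σ⟫ = 0
        rw [inner_smul_right, horth _ (b1 i).2, mul_zero]
      · change ⟪‖L σ‖⁻¹ • L σ, (b1 j : E5)⟫ = 0
        rw [real_inner_comm, inner_smul_right, horth _ (b1 j).2, mul_zero]
      · exfalso
        rcases i with i | i
        · rcases j with j | j
          · exact hij rfl
          · exact hj j rfl
        · exact hi i rfl
  have hcard : Fintype.card ((Unit ⊕ Fin (κ.card - 1)) ⊕ (Unit ⊕ Fin (4 - κ.card))) = 5 := by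
    simp only [Fintype.card_sum, Fintype.card_unit, Fintype.card_fin]
    omega
  have hEdim : Module.finrank ℝ E5 =
      Fintype.card ((Unit ⊕ Fin (κ.card - 1)) ⊕ (Unit ⊕ Fin (4 - κ.card))) := by
    rw [hcard, finrank_euclideanSpace, Fintype.card_fin]
  obtain ⟨b2, hb2⟩ := hon2.exists_orthonormalBasis_extension_of_card_eq hEdim
  set f : (Unit ⊕ Fin (κ.card - 1)) ⊕ (Unit ⊕ Fin (4 - κ.card)) → E5 :=
    fun i => L.symm (b2 i) with hf
  have hBf : ∀ i j, B (f i) (f j) = if i = j then 1 else 0 := by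
    intro i j
    rw [hL]
    simp only [hf, LinearEquiv.apply_symm_apply]
    exact orthonormal_iff_ite.mp b2.orthonormal i j
  have hff : ∀ i, B (f i) (f i) = 1 := fun i => by rw [hBf, if_pos rfl]
  rw [trace_formula hcard B C f hBf]
  simp only [Fintype.sum_sum_type]
  -- the four blocks
  have t1 : C (f (Sum.inl (Sum.inl ()))) (f (Sum.inl (Sum.inl ()))) = τ := by
    have h1 : f (Sum.inl (Sum.inl ())) = ‖L y‖⁻¹ • y := by
      have h2 : b2 (Sum.inl (Sum.inl ())) = ‖L y‖⁻¹ • L y := by
        rw [hb2 _ (by intro j h; cases h)]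
        change ((b1 (Sum.inl ()) : U) : E5) = _
        rw [hb10]
        rfl
      rw [hf]
      change L.symm (b2 (Sum.inl (Sum.inl ()))) = _
      rw [h2, map_smul, LinearEquiv.symm_apply_apply]
    have h3 := hff (Sum.inl (Sum.inl ()))
    have h4 : C (f (Sum.inl (Sum.inl ()))) (f (Sum.inl (Sum.inl ()))) =
        τ * B (f (Sum.inl (Sum.inl ()))) (f (Sum.inl (Sum.inl ()))) := by
      rw [h1]
      simp only [map_smul, ContinuousLinearMap.coe_smul', Pi.smul_apply, smul_eq_mul, hCy]
      ring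
    rw [h4, h3, mul_one]
  have t2 : ∀ i : Fin (κ.card - 1), c ≤ C (f (Sum.inl (Sum.inr i))) (f (Sum.inl (Sum.inr i))) := by
    intro i
    have h1 : pN κ (f (Sum.inl (Sum.inr i))) = 0 := by
      have h2 : b2 (Sum.inl (Sum.inr i)) = (b1 (Sum.inr i) : E5) := by
        rw [hb2 _ (by intro j h; cases h)]
        rfl
      obtain ⟨w, hw, hw2⟩ := (b1 (Sum.inr i)).2
      have h3 : f (Sum.inl (Sum.inr i)) = w := by
        rw [hf]
        change L.symm (b2 (Sum.inl (Sum.inr i))) = _
        rw [h2, ← hw2]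
        exact L.symm_apply_apply w
      rw [h3]
      exact hw
    have h4 := hc _ h1
    rw [hff, mul_one] at h4
    exact h4
  have t3 : C (f (Sum.inr (Sum.inl ()))) (f (Sum.inr (Sum.inl ()))) = 0 := by
    have h1 : f (Sum.inr (Sum.inl ())) = ‖L σ‖⁻¹ • σ := by
      have h2 : b2 (Sum.inr (Sum.inl ())) = ‖L σ‖⁻¹ • L σ := by
        rw [hb2 _ (by intro j h; cases h)]
        rfl
      rw [hf]
      change L.symm (b2 (Sum.inr (Sum.inl ()))) = _
      rw [h2, map_smul, LinearEquiv.symm_apply_apply]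
    rw [h1]
    simp only [map_smul, ContinuousLinearMap.coe_smul', Pi.smul_apply, smul_eq_mul, hCσ]
    ring
  have t4 : ∀ i : Fin (4 - κ.card), -d ≤ C (f (Sum.inr (Sum.inr i))) (f (Sum.inr (Sum.inr i))) := by
    intro i
    have h4 := hd (f (Sum.inr (Sum.inr i)))
    rw [hff, mul_one] at h4
    exact h4
  have s2' : ((κ.card - 1 : ℕ) : ℝ) * c ≤
      ∑ i : Fin (κ.card - 1), C (f (Sum.inl (Sum.inr i))) (f (Sum.inl (Sum.inr i))) := by
    calc ((κ.card - 1 : ℕ) : ℝ) * c = ∑ _i : Fin (κ.card - 1), c := by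
          rw [Finset.sum_const, Finset.card_univ, Fintype.card_fin, nsmul_eq_mul]
      _ ≤ _ := Finset.sum_le_sum fun i _ => t2 i
  have s4 : - (((4 - κ.card : ℕ) : ℝ) * d) ≤
      ∑ i : Fin (4 - κ.card), C (f (Sum.inr (Sum.inr i))) (f (Sum.inr (Sum.inr i))) := by
    calc - (((4 - κ.card : ℕ) : ℝ) * d) = ∑ _i : Fin (4 - κ.card), -d := by
          rw [Finset.sum_const, Finset.card_univ, Fintype.card_fin, nsmul_eq_mul, mul_neg]
      _ ≤ _ := Finset.sum_le_sum fun i _ => t4 i
  have u1 : ∑ i : Unit, C (f (Sum.inl (Sum.inl i))) (f (Sum.inl (Sum.inl i))) = τ := by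
    rw [Fintype.sum_unique]
    exact t1
  have u3 : ∑ i : Unit, C (f (Sum.inr (Sum.inl i))) (f (Sum.inr (Sum.inl i))) = 0 := by
    rw [Fintype.sum_unique]
    exact t3
  rw [u1, u3]
  linarith

end Pool.Agent.MVS.H15
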